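import Pool.Agent.L0h21.CK.Stm
import Mathlib

set_option autoImplicit false

namespace Pool.Agent.L0h51.CK

open MvPolynomial Pool.Agent.L0h21.CK

section lam

variable {K : Type} [Field K] {V : Type}

/-- Apply a map to the coefficients. -/
noncomputable def Lam (f : ℂ → K) (p : MvPolynomial V ℂ) : MvPolynomial V K :=
  ∑ m ∈ p.support, monomial m (f (coeff m p))

lemma coeff_Lam (f : ℂ → K) (h0 : f 0 = 0) (p : MvPolynomial V ℂ) (m : V →₀ ℕ) :
    coeff m (Lam f p) = f (coeff m p) := by
  classical
  rw [Lam, coeff_sum]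
  simp only [coeff_monomial]
  rw [Finset.sum_ite_eq']
  split_ifs with h
  · rfl
  · rw [notMem_support_iff.1 h, h0]

end lam

lemma eval_zero_eq {R : Type} [CommSemiring R] {V : Type} (p : MvPolynomial V R) :
    eval 0 p = coeff 0 p := by
  rw [eval_zero, constantCoeff_eq]

lemma aeval_eval {V : Type} (x : V → ℂ) (p : MvPolynomial V ℂ) : aeval x p = eval x p := by
  rw [← coe_aeval_eq_eval]
  rfl

theorem t_iso : S_iso := by
  intro K _ σ V _ F U hU h
  classical
  let _ : Algebra K ℂ := σ.toAlgebra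
  set J : Ideal (MvPolynomial V ℂ) := Ideal.span (Set.range fun i => pderiv i (map σ F)) with hJ
  have hrad : ∀ v, U * X v ∈ J.radical := by
    intro v
    rw [← vanishingIdeal_zeroLocus_eq_radical (K := ℂ), mem_vanishingIdeal_iff]
    intro x hx
    rw [hJ, zeroLocus_span] at hx
    have h1 := h x (fun i => by
      have := hx _ ⟨i, rfl⟩
      rwa [aeval_eval] at this)
    rw [aeval_eval, map_mul]
    rcases h1 with h1 | h1
    · rw [h1]
      simp
    · rw [h1, zero_mul]
  choose n hn using hrad
  set M : ℕ := ∑ v, n v with hM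
  have hMv : ∀ v, (U * X v) ^ M ∈ J := by
    intro v
    have h1 : n v ≤ M := Finset.single_le_sum (f := n) (fun _ _ => Nat.zero_le _) (Finset.mem_univ v)
    rw [← Nat.sub_add_cancel h1, pow_add]
    exact J.mul_mem_left _ (hn v)
  have hz : eval 0 (U ^ M) ≠ 0 := by
    rw [map_pow]
    exact pow_ne_zero _ hU
  obtain ⟨lam, hlam⟩ : ∃ lam : Module.Dual K ℂ, lam (eval 0 (U ^ M)) ≠ 0 := by
    by_contra hcon
    push Not at hcon
    exact hz ((Module.forall_dual_apply_eq_zero_iff K _).1 hcon)
  have hl0 : lam 0 = 0 := map_zero lam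
  have hadd : ∀ p q : MvPolynomial V ℂ, Lam lam (p + q) = Lam lam p + Lam lam q := by
    intro p q
    ext m
    rw [coeff_add, coeff_Lam _ hl0, coeff_Lam _ hl0, coeff_Lam _ hl0, coeff_add, map_add]
  have hmul : ∀ (q : MvPolynomial V K) (p : MvPolynomial V ℂ),
      Lam lam (p * map σ q) = Lam lam p * q := by
    intro q p
    ext m
    rw [coeff_Lam _ hl0, coeff_mul, coeff_mul, map_sum]
    refine Finset.sum_congr rfl fun x _ => ?_
    rw [coeff_Lam _ hl0, coeff_map]
    have h1 : coeff x.1 p * σ (coeff x.2 q) = (coeff x.2 q) • coeff x.1 p := by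
      rw [Algebra.smul_def, mul_comm]
      rfl
    rw [h1, map_smul, smul_eq_mul, mul_comm]
  refine ⟨Lam lam (U ^ M), M, ?_, fun v => ?_⟩
  · rw [eval_zero_eq, coeff_Lam _ hl0, ← eval_zero_eq]
    exact hlam
  · have h1 := hMv v
    rw [hJ, Ideal.mem_span_range_iff_exists_fun] at h1
    obtain ⟨a, ha⟩ := h1
    have h2 : Lam lam (U ^ M) * X v ^ M = ∑ i, Lam lam (a i) * pderiv i F := by
      rw [← hmul]
      have h3 : U ^ M * map σ (X v ^ M) = ∑ i, a i * map σ (pderiv i F) := by
        rw [map_pow, map_X, ← mul_pow, ← ha]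
        refine Finset.sum_congr rfl fun i _ => ?_
        rw [pderiv_map]
      rw [h3]
      have h4 : ∀ s : Finset V, Lam lam (∑ i ∈ s, a i * map σ (pderiv i F)) =
          ∑ i ∈ s, Lam lam (a i) * pderiv i F := by
        intro s
        induction s using Finset.induction_on with
        | empty =>
          ext m
          rw [Finset.sum_empty, Finset.sum_empty, coeff_Lam _ hl0, coeff_zero, hl0, coeff_zero]
        | insert i s hi ih => rw [Finset.sum_insert hi, Finset.sum_insert hi, hadd, ih, hmul]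
      exact h4 _
    rw [h2]
    exact Ideal.sum_mem _ fun i _ => Ideal.mul_mem_left _ _ (Ideal.subset_span ⟨i, rfl⟩)

end Pool.Agent.L0h51.CK
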