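import Pool.Agent.L0h21.CK.Stm
import Mathlib

set_option autoImplicit false

namespace Pool.Agent.L0h51.CK

open MvPolynomial Pool.Agent.L0h21.CK

section gen

variable {R : Type} [CommRing R] {V : Type}

/-- the ideal of the origin -/
noncomputable abbrev mm (V R : Type) [CommRing R] : Ideal (MvPolynomial V R) := idealOfVars V R

lemma ord_iff (k : ℕ) (p : MvPolynomial V R) : OrdP k p ↔ p ∈ mm V R ^ k := by
  rw [mem_pow_idealOfVars_iff']
  rfl

lemma X_mem (v : V) : (X v : MvPolynomial V R) ∈ mm V R := by
  have h := (mem_pow_idealOfVars_iff' 1 (X v : MvPolynomial V R)).2 (by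
    intro x hx
    have h0 : x = 0 := by
      rw [Nat.lt_one_iff, Finsupp.degree_eq_zero_iff] at hx
      exact hx
    subst h0
    rw [coeff_zero_X])
  rwa [pow_one] at h

lemma zero_of_mem {p : MvPolynomial V R} (h : p ∈ mm V R) : constantCoeff p = 0 := by
  have h1 : p ∈ mm V R ^ 1 := by rwa [pow_one]
  rw [mem_pow_idealOfVars_iff'] at h1
  rw [constantCoeff_eq]
  exact h1 0 (by simp)

/-- the images of the elements of the powers of the ideal under a substitution -/
lemma aeval_mem {ψ : V → MvPolynomial V R} (hψ : ∀ v, ψ v - X v ∈ mm V R ^ 2) (k : ℕ) :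
    ∀ p ∈ mm V R ^ k, aeval ψ p ∈ mm V R ^ k ∧ aeval ψ p - p ∈ mm V R ^ (k + 1) := by
  have hX : ∀ v, ψ v ∈ mm V R := by
    intro v
    have h1 : ψ v = (ψ v - X v) + X v := by ring
    rw [h1]
    exact (mm V R).add_mem (Ideal.pow_le_self (by norm_num) (hψ v)) (X_mem v)
  -- all polynomials
  have h0 : ∀ p : MvPolynomial V R, aeval ψ p - p ∈ mm V R := by
    intro p
    induction p using MvPolynomial.induction_on with
    | C a => rw [aeval_C, algebraMap_eq, sub_self]; exact (mm V R).zero_mem
    | add p q hp hq =>
      rw [map_add]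
      have : aeval ψ p + aeval ψ q - (p + q) = (aeval ψ p - p) + (aeval ψ q - q) := by ring
      rw [this]
      exact (mm V R).add_mem hp hq
    | mul_X p v hp =>
      rw [map_mul, aeval_X]
      have : aeval ψ p * ψ v - p * X v = (aeval ψ p - p) * ψ v + p * (ψ v - X v) := by ring
      rw [this]
      exact (mm V R).add_mem ((mm V R).mul_mem_left _ (hX v))
        ((mm V R).mul_mem_left _ (Ideal.pow_le_self (by norm_num) (hψ v)))
  -- one power
  have h1 : ∀ p ∈ mm V R, aeval ψ p ∈ mm V R ∧ aeval ψ p - p ∈ mm V R ^ 2 := by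
    intro p hp
    have hs : mm V R = Ideal.span (Set.range X) := by
      unfold mm idealOfVars
      rfl
    have hp' : p ∈ Submodule.span (MvPolynomial V R) (Set.range (X : V → MvPolynomial V R)) := by
      have := hp
      rw [hs] at this
      exact this
    induction hp' using Submodule.span_induction with
    | mem x hx =>
      obtain ⟨v, rfl⟩ := hx
      rw [aeval_X]
      exact ⟨hX v, hψ v⟩
    | zero => rw [map_zero, sub_self]; exact ⟨(mm V R).zero_mem, Ideal.zero_mem _⟩
    | add x y hx hy ihx ihy =>
      have hx' : x ∈ mm V R := by rw [hs]; exact hx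
      have hy' : y ∈ mm V R := by rw [hs]; exact hy
      rw [map_add]
      refine ⟨(mm V R).add_mem (ihx hx').1 (ihy hy').1, ?_⟩
      have : aeval ψ x + aeval ψ y - (x + y) = (aeval ψ x - x) + (aeval ψ y - y) := by ring
      rw [this]
      exact Ideal.add_mem _ (ihx hx').2 (ihy hy').2
    | smul a x hx ih =>
      have hx' : x ∈ mm V R := by rw [hs]; exact hx
      rw [smul_eq_mul, map_mul]
      refine ⟨(mm V R).mul_mem_left _ (ih hx').1, ?_⟩
      have : aeval ψ a * aeval ψ x - a * x = aeval ψ a * (aeval ψ x - x) + (aeval ψ a - a) * x := by ring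
      rw [this]
      refine Ideal.add_mem _ (Ideal.mul_mem_left _ _ (ih hx').2) ?_
      rw [pow_two]
      exact Ideal.mul_mem_mul (h0 a) hx'
  induction k with
  | zero =>
    intro p _
    rw [pow_zero, Ideal.one_eq_top, zero_add, pow_one]
    exact ⟨trivial, h0 p⟩
  | succ k ih =>
    intro p hp
    rw [pow_succ] at hp
    refine Submodule.mul_induction_on hp (fun a ha b hb => ?_) (fun x y hx hy => ?_)
    · have e : aeval ψ (a * b) - a * b = aeval ψ a * (aeval ψ b - b) + (aeval ψ a - a) * b := by
        rw [map_mul]; ring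
      refine ⟨?_, ?_⟩
      · rw [map_mul, pow_succ]
        exact Ideal.mul_mem_mul (ih a ha).1 (h1 b hb).1
      · rw [e]
        refine Ideal.add_mem _ ?_ ?_
        · have : k + 1 + 1 = k + 2 := rfl
          rw [this, pow_add]
          exact Ideal.mul_mem_mul (ih a ha).1 (h1 b hb).2
        · rw [pow_succ (mm V R) (k + 1)]
          exact Ideal.mul_mem_mul (ih a ha).2 hb
    · have e : aeval ψ (x + y) - (x + y) = (aeval ψ x - x) + (aeval ψ y - y) := by
        rw [map_add]; ring
      rw [e, map_add]
      exact ⟨Ideal.add_mem _ hx.1 hy.1, Ideal.add_mem _ hx.2 hy.2⟩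

end gen

section dec

variable {K : Type} [Field K] {W : Type} [Fintype W]

/-- decomposition of a polynomial -/
lemma decomp (k : ℕ) : ∀ P ∈ mm (Fin 2 ⊕ W) K ^ k, ∃ (h : MvPolynomial (Fin 2) K)
    (b : W → MvPolynomial (Fin 2 ⊕ W) K), (∀ w, b w ∈ mm (Fin 2 ⊕ W) K ^ (k - 1)) ∧
    P = rename Sum.inl h + ∑ w, X (Sum.inr w) * b w := by
  classical
  induction k with
  | zero =>
    intro P hP
    clear hP
    simp only [Nat.zero_sub, pow_zero, Ideal.one_eq_top]
    induction P using MvPolynomial.induction_on with
    | C a =>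
      refine ⟨C a, fun _ => 0, fun _ => trivial, ?_⟩
      rw [rename_C]
      simp
    | add p q hp hq =>
      obtain ⟨h, b, -, e⟩ := hp
      obtain ⟨h', b', -, e'⟩ := hq
      refine ⟨h + h', fun w => b w + b' w, fun _ => trivial, ?_⟩
      rw [e, e', map_add]
      simp only [mul_add, Finset.sum_add_distrib]
      ring
    | mul_X p v hp =>
      obtain ⟨h, b, -, e⟩ := hp
      rcases v with i | w
      · refine ⟨h * X i, fun w => b w * X (Sum.inl i), fun _ => trivial, ?_⟩
        rw [map_mul, rename_X]
        conv_lhs => rw [e]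
        rw [add_mul, Finset.sum_mul]
        simp only [mul_assoc]
      · refine ⟨0, fun w' => if w' = w then p else 0, fun _ => trivial, ?_⟩
        rw [map_zero, zero_add]
        simp only [mul_ite, mul_zero]
        rw [Finset.sum_ite_eq' Finset.univ w (fun w' => X (Sum.inr w') * p), if_pos (Finset.mem_univ w), mul_comm]
  | succ k ih =>
    intro P hP
    rw [Nat.add_sub_cancel]
    rw [pow_succ] at hP
    -- `S`: the set of the good polynomials
    refine Submodule.mul_induction_on hP (fun a ha b hb => ?_) (fun x y hx hy => ?_)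
    · have hs : mm (Fin 2 ⊕ W) K = Ideal.span (Set.range X) := by
        unfold mm idealOfVars
        rfl
      have hb' : b ∈ Submodule.span (MvPolynomial (Fin 2 ⊕ W) K)
          (Set.range (X : Fin 2 ⊕ W → MvPolynomial (Fin 2 ⊕ W) K)) := by
        have := hb
        rw [hs] at this
        exact this
      clear hb
      induction hb' using Submodule.span_induction generalizing a with
      | mem x hx =>
        obtain ⟨v, rfl⟩ := hx
        rcases v with i | w
        · obtain ⟨h, b, hb, e⟩ := ih a ha
          refine ⟨h * X i, fun w => b w * X (Sum.inl i), fun w => ?_, ?_⟩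
          · rcases Nat.eq_zero_or_pos k with hk | hk
            · subst hk
              rw [pow_zero, Ideal.one_eq_top]
              trivial
            · obtain ⟨j, rfl⟩ : ∃ j, k = j + 1 := ⟨k - 1, by omega⟩
              rw [pow_succ]
              exact Ideal.mul_mem_mul (hb w) (X_mem _)
          · rw [map_mul, rename_X]
            conv_lhs => rw [e]
            rw [add_mul, Finset.sum_mul]
            simp only [mul_assoc]
        · refine ⟨0, fun w' => if w' = w then a else 0, fun w' => ?_, ?_⟩
          · dsimp only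
            split_ifs
            · exact ha
            · exact Ideal.zero_mem _
          · rw [map_zero, zero_add]
            simp only [mul_ite, mul_zero]
            rw [Finset.sum_ite_eq' Finset.univ w (fun w' => X (Sum.inr w') * a), if_pos (Finset.mem_univ w), mul_comm]
      | zero =>
        refine ⟨0, fun _ => 0, fun _ => Ideal.zero_mem _, ?_⟩
        simp
      | add x y hx hy ihx ihy =>
        obtain ⟨h, b, hb, e⟩ := ihx a ha
        obtain ⟨h', b', hb', e'⟩ := ihy a ha
        refine ⟨h + h', fun w => b w + b' w, fun w => Ideal.add_mem _ (hb w) (hb' w), ?_⟩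
        rw [mul_add, e, e', map_add]
        simp only [mul_add, Finset.sum_add_distrib]
        ring
      | smul c x hx ih' =>
        obtain ⟨h, b, hb, e⟩ := ih' (a * c) (Ideal.mul_mem_right _ _ ha)
        refine ⟨h, b, hb, ?_⟩
        rw [smul_eq_mul, ← mul_assoc, e]
    · obtain ⟨h, b, hb, e⟩ := hx
      obtain ⟨h', b', hb', e'⟩ := hy
      refine ⟨h + h', fun w => b w + b' w, fun w => Ideal.add_mem _ (hb w) (hb' w), ?_⟩
      rw [e, e', map_add]
      simp only [mul_add, Finset.sum_add_distrib]
      ring

end dec

theorem t_split : S_split := by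
  intro K _ _ W _ a F g0 ha h3 k
  classical
  set Q : MvPolynomial (Fin 2 ⊕ W) K := ∑ w, C (a w) * X (Sum.inr w) ^ 2 with hQ
  -- from `k ≥ 3`
  have main : ∀ k : ℕ, ∃ (φ : Fin 2 ⊕ W → MvPolynomial (Fin 2 ⊕ W) K) (g : MvPolynomial (Fin 2) K),
      (∀ v, φ v - X v ∈ mm (Fin 2 ⊕ W) K ^ 2) ∧ coeff 0 g = coeff 0 g0 ∧
      aeval φ F - rename Sum.inl g - Q ∈ mm (Fin 2 ⊕ W) K ^ (k + 3) := by
    intro k
    induction k with
    | zero =>
      refine ⟨X, g0, fun v => by rw [sub_self]; exact Ideal.zero_mem _, rfl, ?_⟩
      rw [aeval_X_left, AlgHom.id_apply]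
      exact (ord_iff _ _).1 h3
    | succ k ih =>
      obtain ⟨φ, g, hφ, hg, hH⟩ := ih
      set H := aeval φ F - rename Sum.inl g - Q with hHdef
      obtain ⟨h, b, hb, e⟩ := decomp _ H hH
      set c : W → MvPolynomial (Fin 2 ⊕ W) K := fun w => C (1 / (2 * a w)) * b w with hc
      have hcm : ∀ w, c w ∈ mm (Fin 2 ⊕ W) K ^ (k + 2) := fun w => Ideal.mul_mem_left _ _ (hb w)
      set ψ : Fin 2 ⊕ W → MvPolynomial (Fin 2 ⊕ W) K :=
        fun v => v.elim (fun i => X (Sum.inl i)) (fun w => X (Sum.inr w) - c w) with hψ
      have hψ2 : ∀ v, ψ v - X v ∈ mm (Fin 2 ⊕ W) K ^ 2 := by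
        rintro (i | w)
        · change X (Sum.inl i) - X (Sum.inl i) ∈ _
          rw [sub_self]
          exact Ideal.zero_mem _
        · change X (Sum.inr w) - c w - X (Sum.inr w) ∈ _
          have : X (Sum.inr w) - c w - X (Sum.inr w) = - c w := by ring
          rw [this]
          exact (Ideal.neg_mem_iff _).2 (Ideal.pow_le_pow_right (by omega) (hcm w))
      refine ⟨fun v => aeval ψ (φ v), g + h, fun v => ?_, ?_, ?_⟩
      · have e1 : aeval ψ (φ v) - X v = aeval ψ (φ v - X v) + (ψ v - X v) := by
          rw [map_sub, aeval_X]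
          ring
        rw [e1]
        exact Ideal.add_mem _ (aeval_mem hψ2 2 _ (hφ v)).1 (hψ2 v)
      · have h1 : constantCoeff H = 0 := zero_of_mem (Ideal.pow_le_self (by omega) hH)
        have h2 : constantCoeff (rename Sum.inl h : MvPolynomial (Fin 2 ⊕ W) K) = constantCoeff h :=
          constantCoeff_rename _ _
        rw [e, map_add, h2, map_sum] at h1
        have h4 : ∀ w ∈ (Finset.univ : Finset W),
            constantCoeff (X (Sum.inr w) * b w : MvPolynomial (Fin 2 ⊕ W) K) = 0 := by
          intro w _
          rw [map_mul, constantCoeff_X, zero_mul]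
        rw [Finset.sum_eq_zero h4, add_zero] at h1
        have h5 : coeff 0 h = 0 := by
          rw [← constantCoeff_eq]
          exact h1
        rw [coeff_add, h5, add_zero, hg]
      · have e1 : aeval (fun v => aeval ψ (φ v)) F = aeval ψ (aeval φ F) := by
          rw [← comp_aeval]
          rfl
        have e2 : aeval φ F = H + rename Sum.inl g + Q := by rw [hHdef]; ring
        have e3 : aeval ψ (rename Sum.inl g : MvPolynomial (Fin 2 ⊕ W) K) = rename Sum.inl g := by
          rw [aeval_rename]
          have h7 : (aeval (ψ ∘ Sum.inl) : MvPolynomial (Fin 2) K →ₐ[K] MvPolynomial (Fin 2 ⊕ W) K) =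
              rename Sum.inl := by
            refine algHom_ext fun i => ?_
            rw [aeval_X, rename_X]
            rfl
          rw [h7]
        have e4 : aeval ψ Q = Q - ∑ w, X (Sum.inr w) * b w + ∑ w, C (a w) * c w ^ 2 := by
          rw [hQ, map_sum, ← Finset.sum_sub_distrib, ← Finset.sum_add_distrib]
          refine Finset.sum_congr rfl fun w _ => ?_
          rw [map_mul, map_pow, aeval_C, aeval_X, algebraMap_eq]
          change C (a w) * (X (Sum.inr w) - c w) ^ 2 = _
          have h5 : C (a w) * c w * 2 = b w := by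
            have h6 : (2 : MvPolynomial (Fin 2 ⊕ W) K) = C 2 := by
              rw [map_ofNat]
            rw [hc, h6]
            dsimp only
            have h7 : C (a w) * (C (1 / (2 * a w)) * b w) * C 2 =
                C (a w * (1 / (2 * a w)) * 2) * b w := by
              rw [map_mul, map_mul]
              ring
            rw [h7]
            have h8 : a w * (1 / (2 * a w)) * 2 = 1 := by
              have := ha w
              field_simp
            rw [h8, map_one, one_mul]
          rw [← h5]
          ring
        have e5 : aeval (fun v => aeval ψ (φ v)) F - rename Sum.inl (g + h) - Q =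
            (aeval ψ H - H) + ∑ w, C (a w) * c w ^ 2 := by
          rw [e1, e2, map_add, map_add, e3, e4, map_add]
          have : H = rename Sum.inl h + ∑ w, X (Sum.inr w) * b w := e
          rw [eq_comm, ← sub_eq_zero] at this
          linear_combination -this
        rw [e5]
        refine Ideal.add_mem _ (aeval_mem hψ2 _ _ hH).2 (Ideal.sum_mem _ fun w _ => ?_)
        refine Ideal.mul_mem_left _ _ ?_
        have h6 := Ideal.pow_mem_pow (hcm w) 2
        rw [← pow_mul] at h6
        exact Ideal.pow_le_pow_right (by omega) h6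
  obtain ⟨φ, g, h1, h2, h3'⟩ := main k
  exact ⟨φ, g, fun v => (ord_iff _ _).2 (h1 v), h2,
    (ord_iff _ _).2 (Ideal.pow_le_pow_right (by omega) h3')⟩

end Pool.Agent.L0h51.CK
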